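import Pool.Agent.MP_f6f0d4_nt.H39.Asym

namespace Pool.Agent.Results.MP_f6f0d4_nt.ExceptionalSet

open Filter Real

/-- Few starting points `n ≤ N` begin a long run of pairwise distinct divisor counts. -/
theorem result :
    ∀ ε : ℝ, 0 < ε → ∃ A : ℕ, ∀ᶠ N : ℕ in atTop, ∀ E k : ℕ, 2 ≤ E →
      (E : ℝ) ^ A * (3 * log N / log (log N)) ^ Nat.primeCounting E ≤ k →
      (({n : ℕ | 1 ≤ n ∧ n ≤ N ∧
          Set.InjOn (fun m : ℕ => (Nat.divisors m).card) (Set.Icc n (n + k))}.ncard : ℕ) : ℝ) ≤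
        6 * (N : ℝ) ^ ((1 + ε) / E) := by
  intro ε hε
  obtain ⟨A, hA⟩ := Pool.Agent.MP_f6f0d4_nt.H39.main ε hε
  refine ⟨A, ?_⟩
  filter_upwards [hA] with N h E k hE hk
  have hf : {n : ℕ | 1 ≤ n ∧ n ≤ N ∧
      Set.InjOn (fun m : ℕ => (Nat.divisors m).card) (Set.Icc n (n + k))}.Finite :=
    (Set.finite_Iic N).subset fun n hn => hn.2.1
  rw [Set.ncard_eq_toFinset_card _ hf]
  exact h E k hE hk _ fun n hn => hf.mem_toFinset.1 hn

end Pool.Agent.Results.MP_f6f0d4_nt.ExceptionalSet
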