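import Pool.Agent.MP_f6f0d4_nt.H33.Asym

namespace Pool.Agent.Results.MP_f6f0d4_nt.LowerBound

open Filter Real

/-- `K(N) ≥ c log N / ((log log N) ^ 3 log log log N)` for all large `N`. -/
theorem result :
    ∃ c : ℝ, 0 < c ∧ ∀ᶠ N : ℕ in atTop,
      c * (log N / (log (log N) ^ 3 * log (log (log N)))) ≤
        ((sSup {k : ℕ | ∃ n : ℕ, 1 ≤ n ∧ n ≤ N ∧
          Set.InjOn (fun m : ℕ => (Nat.divisors m).card) (Set.Icc n (n + k))} : ℕ) : ℝ) := by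
  refine ⟨1 / 4000, by norm_num, ?_⟩
  filter_upwards [Pool.Agent.MP_f6f0d4_nt.H33.main] with N ⟨n, k, h1, h2, h3, h4⟩
  refine h3.trans (Nat.cast_le.2 (le_csSup ?_ ⟨n, h1, h2, h4⟩))
  obtain ⟨p, hp1, hp⟩ := Nat.exists_infinite_primes N
  obtain ⟨q, hq1, hq⟩ := Nat.exists_infinite_primes (p + 1)
  refine ⟨q, ?_⟩
  rintro j ⟨m, -, hm, hinj⟩
  by_contra hj
  have h5 : p = q := hinj ⟨by omega, by omega⟩ ⟨by omega, by omega⟩ (by
    simp only [hp.divisors, hq.divisors]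
    rw [Finset.card_pair hp.one_lt.ne, Finset.card_pair hq.one_lt.ne])
  omega

end Pool.Agent.Results.MP_f6f0d4_nt.LowerBound
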